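import Pool.Agent.Q109.PS.Main

set_option autoImplicit false

/-!
# Group-invariant consistent path systems are `O(√|G|)`-metric

Every `G`-invariant consistent path system `𝒫` in every Cayley graph of every finite group `G`
satisfies `Δ(𝒫) ≤ 14 √|G|`.  This disproves the statement of Q1 (it is its negated form).
-/

namespace Pool.Agent.Results.MP_8f0578_co.SqrtBound

open Filter

/-- `ρ` is a metric on `V`. -/
structure IsMetric {V : Type} (ρ : V → V → ℝ) : Prop where
  nonneg : ∀ x y, 0 ≤ ρ x y
  eq_zero : ∀ x y, ρ x y = 0 ↔ x = y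
  symm : ∀ x y, ρ x y = ρ y x
  triangle : ∀ x y z, ρ x z ≤ ρ x y + ρ y z

/-- `p` is (the vertex sequence of) a simple path of `Γ` from `u` to `v`. -/
structure IsSimplePath {V : Type} (Γ : SimpleGraph V) (u v : V) (p : List V) : Prop where
  chain : p.IsChain Γ.Adj
  nodup : p.Nodup
  first : p.head? = some u
  last : p.getLast? = some v

/-- A consistent path system in `Γ`: one simple path for every pair of vertices, `P_{v,u}` is
`P_{u,v}` (reversed, when written from `v` to `u`), and every portion `m` of a path `P_{u,v}`,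
say from `a` to `b`, is the path `P_{a,b}`. -/
structure PathSystem {V : Type} (Γ : SimpleGraph V) where
  path : V → V → List V
  isSimplePath : ∀ u v, IsSimplePath Γ u v (path u v)
  symm : ∀ u v, path v u = (path u v).reverse
  consistent : ∀ (u v a b : V) (l₁ m l₂ : List V), path u v = l₁ ++ m ++ l₂ →
    m.head? = some a → m.getLast? = some b → m = path a b

/-- `ρ(P) = ∑ ρ(x_{i-1}, x_i)` for `P = (x_0, …, x_k)`. -/
def weight {V : Type} (ρ : V → V → ℝ) : List V → ℝ
  | [] => 0
  | [_] => 0
  | x :: y :: l => ρ x y + weight ρ (y :: l)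

/-- `𝒫` is `α`-metric. -/
def PathSystem.IsAlphaMetric {V : Type} {Γ : SimpleGraph V} (P : PathSystem Γ) (α : ℝ) : Prop :=
  ∃ ρ : V → V → ℝ, IsMetric ρ ∧ ∀ u v, weight ρ (P.path u v) ≤ α * ρ u v

/-- `Δ(𝒫) = inf {α ≥ 1 : 𝒫 is α-metric}`. -/
noncomputable def PathSystem.delta {V : Type} {Γ : SimpleGraph V} (P : PathSystem Γ) : ℝ :=
  sInf {α : ℝ | 1 ≤ α ∧ P.IsAlphaMetric α}

/-- The Cayley graph `Γ(G,S)`: vertex set `G`, edges `{x, xs}` for `x ∈ G`, `s ∈ S`. -/
def cayley (G : Type) [Group G] (S : Set G) : SimpleGraph G :=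
  SimpleGraph.fromRel fun x y => ∃ s ∈ S, y = x * s

/-- `𝒫` is `G`-invariant: `g P_{x,y} = P_{gx,gy}`. -/
def Invariant {G : Type} [Group G] {S : Set G} (P : PathSystem (cayley G S)) : Prop :=
  ∀ g x y : G, (P.path x y).map (fun h => g * h) = P.path (g * x) (g * y)

/-! ### From path systems to canonical words -/

section

theorem weight_eq {V : Type} (ρ : V → V → ℝ) (d : V) : ∀ l : List V,
    weight ρ l = ∑ i ∈ Finset.range (l.length - 1), ρ (l.getD i d) (l.getD (i + 1) d)
  | [] => by simp [weight]
  | [x] => by simp [weight]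
  | x :: y :: l => by
    rw [weight, weight_eq ρ d (y :: l)]
    simp only [List.length_cons, Nat.add_sub_cancel]
    rw [Finset.sum_range_succ', add_comm]
    rfl

variable {G : Type} [Group G] {S : Set G} (P : PathSystem (cayley G S)) (hP : Invariant P)

theorem len_pos (x y : G) : 0 < (P.path x y).length := by
  have h := (P.isSimplePath x y).first
  rcases hl : P.path x y with _ | ⟨a, l⟩
  · rw [hl] at h; simp at h
  · simp

theorem getD_zero (x y d : G) : (P.path x y).getD 0 d = x := by
  have h := (P.isSimplePath x y).first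
  rcases hl : P.path x y with _ | ⟨a, l⟩
  · rw [hl] at h; simp at h
  · rw [hl] at h; simpa using h

theorem getD_last (x y d : G) : (P.path x y).getD ((P.path x y).length - 1) d = y := by
  have h := (P.isSimplePath x y).last
  rw [List.getLast?_eq_getElem?] at h
  rw [List.getD_eq_getElem?_getD, h]
  rfl

/-- The canonical words of an invariant path system. -/
noncomputable def toSys : Pool.Agent.Q109.PS.Sys G where
  len g := (P.path 1 g).length - 1
  pt g i := (P.path 1 g).getD i 1
  pt_zero g := getD_zero P 1 g 1
  pt_len g := getD_last P 1 g 1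
  inj g i j hi hj h := by
    have hpos := len_pos P 1 g
    have hi' : i < (P.path 1 g).length := by omega
    have hj' : j < (P.path 1 g).length := by omega
    rw [List.getD_eq_getElem _ _ hi', List.getD_eq_getElem _ _ hj'] at h
    exact (List.Nodup.getElem_inj_iff (P.isSimplePath 1 g).nodup).1 h
  fwd g i j hij hj := by
    have hpos := len_pos P 1 g
    set l := P.path 1 g with hl
    have hi' : i < l.length := by omega
    have hj' : j < l.length := by omega
    set m := (l.take (j + 1)).drop i with hm
    have hml : m.length = j + 1 - i := by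
      rw [hm, List.length_drop, List.length_take]; omega
    have hmk : ∀ k, k ≤ j - i → m.getD k 1 = l.getD (i + k) 1 := by
      intro k hk
      rw [hm, List.getD_eq_getElem?_getD, List.getD_eq_getElem?_getD, List.getElem?_drop,
        List.getElem?_take_of_lt (by omega)]
    have hsplit : P.path 1 g = l.take i ++ m ++ l.drop (j + 1) := by
      rw [← hl]
      have h1 : l.take i ++ m = l.take (j + 1) := by
        have : l.take i = (l.take (j + 1)).take i := by
          rw [List.take_take, min_eq_left (by omega)]
        rw [this, hm, List.take_append_drop]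
      rw [h1, List.take_append_drop]
    have hhead : m.head? = some (l.getD i 1) := by
      rw [List.head?_eq_getElem?]
      have := hmk 0 (by omega)
      rw [List.getD_eq_getElem _ _ (by omega : 0 < m.length)] at this
      rw [List.getElem?_eq_getElem (by omega : 0 < m.length), this]
      simp
    have hlast : m.getLast? = some (l.getD j 1) := by
      rw [List.getLast?_eq_getElem?]
      have := hmk (j - i) le_rfl
      rw [List.getD_eq_getElem _ _ (by omega : j - i < m.length)] at this
      have h2 : m.length - 1 = j - i := by omega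
      rw [h2, List.getElem?_eq_getElem (by omega : j - i < m.length), this]
      congr 2
      omega
    have hpath := P.consistent 1 g _ _ _ m _ hsplit hhead hlast
    have hmap := hP (l.getD i 1)⁻¹ (l.getD i 1) (l.getD j 1)
    rw [← hpath, inv_mul_cancel] at hmap
    constructor
    · rw [← hmap, List.length_map, hml]; omega
    · intro k hk
      rw [← hmap, List.getD_eq_getElem _ _ (by rw [List.length_map]; omega), List.getElem_map,
        ← hmk k hk, List.getD_eq_getElem m _ (by omega : k < m.length)]
  inv g := by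
    have hpos := len_pos P 1 g
    have hmap := hP g⁻¹ g 1
    rw [inv_mul_cancel, mul_one, P.symm 1 g] at hmap
    constructor
    · rw [← hmap, List.length_map, List.length_reverse]
    · intro k hk
      rw [← hmap, List.getD_eq_getElem _ _ (by rw [List.length_map, List.length_reverse]; omega),
        List.getElem_map, List.getElem_reverse, List.getD_eq_getElem _ _ (by omega)]

end

/-- **Main theorem (Q1 is answered in the negative).** -/
theorem result :
    (∀ (G : Type) [Group G] [Fintype G] (S : Set G), (∀ s ∈ S, s⁻¹ ∈ S) →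
      Subgroup.closure S = ⊤ → ∀ P : PathSystem (cayley G S), Invariant P →
        P.IsAlphaMetric (14 * √(Fintype.card G : ℝ)) ∧ P.delta ≤ 14 * √(Fintype.card G : ℝ)) ∧
    ¬ ∃ (G : ℕ → Type) (_ : ∀ n, Group (G n)) (_ : ∀ n, Fintype (G n)) (S : ∀ n, Set (G n))
      (P : ∀ n, PathSystem (cayley (G n) (S n))),
      (∀ n, ∀ s ∈ S n, s⁻¹ ∈ S n) ∧ (∀ n, Subgroup.closure (S n) = ⊤) ∧
      (∀ n, Invariant (P n)) ∧ Tendsto (fun n => (Fintype.card (G n) : ℝ)) atTop atTop ∧
      Tendsto (fun n => (P n).delta / √(Fintype.card (G n) : ℝ)) atTop atTop := by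
  have key : ∀ (G : Type) [Group G] [Fintype G] (S : Set G), (∀ s ∈ S, s⁻¹ ∈ S) →
      Subgroup.closure S = ⊤ → ∀ P : PathSystem (cayley G S), Invariant P →
        P.IsAlphaMetric (14 * √(Fintype.card G : ℝ)) ∧ P.delta ≤ 14 * √(Fintype.card G : ℝ) := by
    intro G _ _ S _ _ P hP
    classical
    have hα : P.IsAlphaMetric (14 * √(Fintype.card G : ℝ)) := by
      obtain ⟨ρ, hρ, h⟩ := (toSys P hP).main
      refine ⟨ρ, ⟨hρ.nonneg, hρ.zero, hρ.symm, hρ.tri⟩, ?_⟩
      intro u v
      have hmap := hP u 1 (u⁻¹ * v)
      rw [mul_one, mul_inv_cancel_left] at hmap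
      have h2 := h u (u⁻¹ * v)
      rw [mul_inv_cancel_left] at h2
      refine le_trans (le_of_eq ?_) h2
      rw [← hmap, weight_eq ρ (u * 1), List.length_map]
      apply Finset.sum_congr rfl
      intro i hi
      have hi' : i < (P.path 1 (u⁻¹ * v)).length - 1 := Finset.mem_range.1 hi
      rw [List.getD_map, List.getD_map]
      rfl
    refine ⟨hα, csInf_le ⟨1, fun a ha => ha.1⟩ ⟨?_, hα⟩⟩
    have h1 : (1 : ℝ) ≤ √(Fintype.card G : ℝ) := by
      apply Real.one_le_sqrt.2
      exact_mod_cast Fintype.card_pos
    linarith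
  refine ⟨key, ?_⟩
  rintro ⟨G, hG, hF, S, P, hS, hgen, hP, -, ht⟩
  obtain ⟨n, hn⟩ := (ht.eventually (eventually_gt_atTop (14 : ℝ))).exists
  have h := (key (G n) (S n) (hS n) (hgen n) (P n) (hP n)).2
  have hpos : (0 : ℝ) < √(Fintype.card (G n) : ℝ) := by
    apply Real.sqrt_pos.2
    exact_mod_cast Fintype.card_pos
  rw [lt_div_iff₀ hpos] at hn
  linarith

end Pool.Agent.Results.MP_8f0578_co.SqrtBound
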